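import Pool.Agent.R489.PI.Conv

/-!
# Every minimal PI system has a multiply minimal point
-/

set_option autoImplicit false

namespace Pool.Agent.Results.MP_41a91a_an

open Pool.Agent.R489.PI

/-- `z` is a minimal point of the homeomorphism `f`: its orbit closure is a minimal subsystem,
that is, every point of the orbit closure has the same orbit closure -/
def IsMinimalPoint {Z : Type} [TopologicalSpace Z] (f : Z ≃ₜ Z) (z : Z) : Prop :=
  ∀ w ∈ closure (Set.range fun n : ℤ => (f ^ n) z),
    closure (Set.range fun n : ℤ => (f ^ n) w) = closure (Set.range fun n : ℤ => (f ^ n) z)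

/-- the homeomorphism `T × T ^ 2 × ... × T ^ d` of `X ^ d` -/
def tauPow (S : Sys) (d : ℕ) : (Fin d → S.X) ≃ₜ (Fin d → S.X) :=
  Homeomorph.piCongrRight (fun i => S.T ^ (i.val + 1))

/-- `(x, ..., x)` is a minimal point of `T × T ^ 2 × ... × T ^ d` for every `d` -/
def IsMultiplyMinimal (S : Sys) (x : S.X) : Prop :=
  ∀ d : ℕ, IsMinimalPoint (tauPow S d) (fun _ => x)

theorem MultiplyMinimalPoint.tau_zpow (S : Sys) (d : ℕ) (n : ℤ) (w : Fin d → S.X) :
    ((tauPow S d) ^ n) w = (tau (pw S.act (aa d))).a n w := by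
  funext i
  have h := conj_zpow (f := tauPow S d) (g := S.T ^ (i.val + 1)) (p := fun w => w i)
    (fun w => rfl) n w
  rw [h]
  show ((S.T ^ (i.val + 1)) ^ n) (w i) = (S.T ^ (0 + aa d i * n)) (w i)
  rw [zero_add, aa, zpow_mul]
  congr 2

/-- Every minimal PI system has a multiply minimal point. -/
theorem MultiplyMinimalPoint.result :
    ∀ S : Sys, IsPI S → ∃ x : S.X, IsMultiplyMinimal S x := by
  intro S hS
  obtain ⟨x, hx⟩ := main hS
  refine ⟨x, fun d => ?_⟩
  have h1 : ∀ w, closure (Set.range fun n : ℤ => ((tauPow S d) ^ n) w) =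
      (tau (pw S.act (aa d))).oc w := by
    intro w
    simp only [MultiplyMinimalPoint.tau_zpow]
    rfl
  intro w hw
  rw [h1] at hw
  rw [h1, h1]
  exact Act.MinPt.eq (hx d) hw

end Pool.Agent.Results.MP_41a91a_an
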